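import Pool.Agent.Q57.IK.Shift

/-!
The Iitaka fields of toroidal divisors: the dimensions and the factors.
-/

set_option autoImplicit false
set_option linter.overlappingInstances false
set_option linter.unusedSectionVars false
set_option maxHeartbeats 1000000

open FF MvPolynomial Pool.Agent.W603.LV Pool.Agent.W602.GT Pool.Agent.W602.Cov
open Pool.Agent.TH756.PR Pool.Agent.TH122.AB Pool.Agent.TH756.PN
open Pool.Agent.Y169.CH Pool.Agent.Q57.TP Pool.Agent.Q57.TQ
open Pool.Agent.Q57.GM Pool.Agent.Q57.GH Pool.Agent.Q57.FG Pool.Agent.Q57.GE Pool.Agent.Q57.FT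

namespace Pool.Agent.Q57.IK

section trdeg

variable {K : Type} [Field K] [Algebra ℂ K] {ι : Type} {s : ι → K}

open IntermediateField.algebraAdjoinAdjoin in
/-- the transcendence degree of the algebraic closure in `K` of a purely transcendental field -/
theorem trdeg_of (hs : AlgebraicIndependent ℂ s) (M : IntermediateField ℂ K)
    (h : ∀ z, z ∈ M ↔ IsAlgebraic (IntermediateField.adjoin ℂ (Set.range s)) z) :
    Algebra.trdeg ℂ M = Cardinal.mk ι := by
  classical
  have hmem : ∀ i, s i ∈ M := fun i => (h _).2 (isAlgebraic_algebraMap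
    (⟨s i, IntermediateField.subset_adjoin _ _ ⟨i, rfl⟩⟩ :
      IntermediateField.adjoin ℂ (Set.range s)))
  obtain ⟨g, hg⟩ : ∃ g : ι → M, g = fun i => ⟨s i, hmem i⟩ := ⟨_, rfl⟩
  have hgs : ∀ i, (g i : K) = s i := fun i => by rw [hg]
  have h1 : AlgebraicIndependent ℂ g := by
    refine AlgebraicIndependent.of_comp M.val ?_
    have h2 : (M.val ∘ g : ι → K) = s := funext hgs
    rw [h2]
    exact hs
  have h2 : IsTranscendenceBasis ℂ g := by
    refine isTranscendenceBasis_iff_algebraicIndependent_isAlgebraic.2 ⟨h1, ⟨fun w => ?_⟩⟩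
    have h3 : IsAlgebraic (Algebra.adjoin ℂ (Set.range s)) (w : K) :=
      (IsFractionRing.isAlgebraic_iff (Algebra.adjoin ℂ (Set.range s))
        (IntermediateField.adjoin ℂ (Set.range s)) K).2 ((h _).1 w.2)
    have h4 : (Algebra.adjoin ℂ (Set.range g)).map M.val = Algebra.adjoin ℂ (Set.range s) := by
      rw [AlgHom.map_adjoin, ← Set.range_comp]
      congr 2
      exact funext hgs
    rw [← h4] at h3
    refine IsAlgebraic.of_ringHom_of_comp_eq
      ((Algebra.adjoin ℂ (Set.range g)).equivMapOfInjective M.val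
        (RingHom.injective M.val.toRingHom)) M.val h3 (AlgEquiv.surjective _)
      (RingHom.injective M.val.toRingHom) ?_
    ext
    rfl
  exact h2.cardinalMk_eq_trdeg.symm

end trdeg

variable {r : ℕ} {n : Fin r → ℕ}

theorem card_fac (I : Finset (Fin r)) :
    Cardinal.mk {b : (i : Fin r) × Fin (n i) // b.1 ∈ I} = ((∑ t ∈ I, n t : ℕ) : Cardinal) := by
  classical
  rw [Cardinal.mk_fintype, Fintype.card_subtype]
  congr 1
  have h1 : (Finset.univ.filter fun b : (i : Fin r) × Fin (n i) => b.1 ∈ I) =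
      I.sigma fun _ => Finset.univ := by
    ext b
    simp
  rw [h1, Finset.card_sigma]
  simp

/-- the factors in whose direction the divisor moves, with rational vectors -/
theorem slk_iff {T : Finset (Fin r → ℕ)} {dF : Fin r → ℕ} {c : (Fin r → ℕ) → ℚ} {β : Fin r → ℤ}
    {t : Fin r} : Slk T dF c β t ↔ ∃ y : Fin r → ℚ, (∀ k, (dF k : ℚ) * y k ≤ β k) ∧
      (∀ s ∈ T, - c s ≤ ∑ k, y k * s k) ∧ (dF t : ℚ) * y t < β t := by
  constructor
  · rintro ⟨m, y, hm, h, hlt⟩
    have hm0 : (0 : ℚ) < m := by exact_mod_cast hm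
    refine ⟨fun k => y k / m, fun k => ?_, fun s hs => ?_, ?_⟩
    · beta_reduce
      rw [mul_div_assoc', div_le_iff₀ hm0]
      exact_mod_cast h.deg k
    · have h1 := h.vec s hs
      have h2 : ∑ k, (y k : ℚ) / m * s k = (∑ k, (y k : ℚ) * s k) / m := by
        rw [Finset.sum_div]
        exact Finset.sum_congr rfl fun k _ => by ring
      beta_reduce
      rw [h2, le_div_iff₀ hm0]
      linarith
    · beta_reduce
      rw [mul_div_assoc', div_lt_iff₀ hm0]
      exact_mod_cast hlt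
  · rintro ⟨y, h1, h2, h3⟩
    obtain ⟨m, hm, hden⟩ := Pool.Agent.Y169.TH.exists_den y
    choose z hz using hden
    have hm0 : (0 : ℚ) < m := by exact_mod_cast hm
    refine ⟨m, z, hm, ⟨fun k => ?_, fun s hs => ?_⟩, ?_⟩
    · have h4 := mul_le_mul_of_nonneg_left (h1 k) hm0.le
      have h5 : (((dF k : ℤ) * z k : ℤ) : ℚ) ≤ ((β k * m : ℤ) : ℚ) := by
        push_cast
        rw [← hz]
        linarith
      exact Int.cast_le.1 h5
    · have h4 := mul_le_mul_of_nonneg_left (h2 s hs) hm0.le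
      refine h4.trans (le_of_eq ?_)
      rw [Finset.mul_sum]
      exact Finset.sum_congr rfl fun k _ => by rw [← hz]; ring
    · have h4 := mul_lt_mul_of_pos_left h3 hm0
      have h5 : (((dF t : ℤ) * z t : ℤ) : ℚ) < ((β t * m : ℤ) : ℚ) := by
        push_cast
        rw [← hz]
        linarith
      exact Int.cast_lt.1 h5

/-- **The factors in whose direction a nef divisor moves.** -/
theorem slk_nef {R : ℕ} {M : Fin R → ℕ} (hM : ∀ j, 0 < M j) {a : Fin R → Fin r → ℕ}
    {S : Finset (Finset (Fin r → ℕ))}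
    (hS : Fan M a S) {c : (Fin r → ℕ) → ℚ} {u : Finset (Fin r → ℕ) → Fin r → ℚ}
    (hu : ∀ σ ∈ S, ∀ v, Adm M a v → InC σ v → - c v = ∑ k, u σ k * v k)
    {dF : Fin r → ℕ} {β : Fin r → ℤ} (hi1 : ∀ σ ∈ S, ∀ t, (dF t : ℚ) * u σ t ≤ β t)
    (hi2 : ∀ σ ∈ S, ∀ τ ∈ S, ∀ s ∈ τ, - c s ≤ ∑ k, u σ k * (s k : ℚ)) {t : Fin r} :
    Slk (S.biUnion id) dF c β t ↔ ∃ σ ∈ S, (dF t : ℚ) * u σ t < β t := by
  classical
  rw [slk_iff]
  constructor
  · rintro ⟨y, h1, h2, h3⟩
    obtain ⟨k0, hk0⟩ : ∃ k0 : ℕ, k0 = ∏ j, M j := ⟨_, rfl⟩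
    have hk0' : 0 < k0 := by
      rw [hk0]
      exact Finset.prod_pos fun j _ => hM j
    have hk0q : (0 : ℚ) < k0 := by exact_mod_cast hk0'
    obtain ⟨v, hv⟩ : ∃ v : Fin r → ℕ, v = Pi.single t k0 := ⟨_, rfl⟩
    have hvt : v t = k0 := by rw [hv, Pi.single_eq_same]
    have hvk : ∀ k, k ≠ t → v k = 0 := fun k hk => by rw [hv, Pi.single_eq_of_ne hk]
    have hadm : Adm M a v := by
      refine ⟨fun h0 => ?_, fun j => ?_⟩
      · have h4 := congrFun h0 t
        rw [hvt, Pi.zero_apply] at h4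
        omega
      · refine Finset.dvd_sum fun k _ => ?_
        by_cases hk : k = t
        · rw [hk, hvt, hk0]
          exact Dvd.dvd.mul_left (Finset.dvd_prod_of_mem M (Finset.mem_univ j)) _
        · rw [hvk k hk, mul_zero]
          exact dvd_zero _
    obtain ⟨σ, hσ, w, hw, hwv⟩ := hS.cover v hadm
    refine ⟨σ, hσ, ?_⟩
    -- the value of `y` at the coordinate vector
    have h4 : ∀ s ∈ σ, w s * (- c s) ≤ w s * ∑ k, y k * (s k : ℚ) := fun s hs =>
      mul_le_mul_of_nonneg_left (h2 s (Finset.mem_biUnion.2 ⟨σ, hσ, hs⟩)) (hw s)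
    have h5 : ∀ f : Fin r → ℚ, ∑ s ∈ σ, w s * ∑ k, f k * (s k : ℚ) = f t * k0 := by
      intro f
      have h6 : ∑ s ∈ σ, w s * ∑ k, f k * (s k : ℚ) = ∑ k, f k * ∑ s ∈ σ, w s * (s k : ℚ) := by
        simp only [Finset.mul_sum]
        rw [Finset.sum_comm]
        exact Finset.sum_congr rfl fun k _ => Finset.sum_congr rfl fun s _ => by ring
      rw [h6, Finset.sum_eq_single t]
      · rw [← hwv, hvt]
      · intro k _ hk
        rw [← hwv, hvk k hk]
        simp
      · intro h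
        exact absurd (Finset.mem_univ t) h
    have h6 : ∑ s ∈ σ, w s * (- c s) = u σ t * k0 := by
      rw [← h5 (u σ)]
      exact Finset.sum_congr rfl fun s hs => by
        rw [hu σ hσ s (hS.adm σ hσ s hs) (inC_mem hs)]
    have h7 : u σ t * k0 ≤ y t * k0 := by
      rw [← h6, ← h5 y]
      exact Finset.sum_le_sum h4
    have h8 : u σ t ≤ y t := le_of_mul_le_mul_right h7 hk0q
    have h9 : (0 : ℚ) ≤ dF t := by positivity
    exact lt_of_le_of_lt (mul_le_mul_of_nonneg_left h8 h9) h3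
  · rintro ⟨σ, hσ, hlt⟩
    refine ⟨u σ, hi1 σ hσ, fun s hs => ?_, hlt⟩
    obtain ⟨τ, hτ, hs'⟩ := Finset.mem_biUnion.1 hs
    exact hi2 σ hσ τ hτ s hs'

end Pool.Agent.Q57.IK
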