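import Pool.Agent.Q57.CX.Ring

/-!
The Iitaka field of a divisor: the quotients of the sections of its multiples.
-/

set_option autoImplicit false
set_option linter.overlappingInstances false
set_option linter.unusedSectionVars false
set_option maxHeartbeats 1000000

open FF MvPolynomial Pool.Agent.W603.LV Pool.Agent.W602.GT Pool.Agent.W602.Cov
open Pool.Agent.TH756.PR Pool.Agent.TH122.AB Pool.Agent.TH756.PN

namespace Pool.Agent.Q57.IK

variable {K : Type} [Field K] [Algebra ℂ K]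

/-- `f` is a section of `m • D` -/
def S1 (N : ℕ) (δ : Place ℂ K → ℚ) (m : ℕ) (f : K) : Prop :=
  ∀ P : Place ℂ K, Divisorial N P → f = 0 ∨ - ((m : ℚ) * δ P) ≤ P.ord f

variable {N : ℕ} {δ : Place ℂ K → ℚ}

theorem s1_zero (m : ℕ) : S1 N δ m 0 := fun _ _ => Or.inl rfl

theorem s1_const (a : ℂ) : S1 N δ 0 (algebraMap ℂ K a) := by
  intro P _
  by_cases ha : a = 0
  · left
    rw [ha, map_zero]
  · right
    rw [P.ord_const ha]
    simp

theorem s1_add {m : ℕ} {f f' : K} (h : S1 N δ m f) (h' : S1 N δ m f') : S1 N δ m (f + f') := by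
  intro P hP
  by_cases h0 : f + f' = 0
  · exact Or.inl h0
  right
  rcases h P hP with h1 | h1
  · rw [h1, zero_add] at h0 ⊢
    exact (h' P hP).resolve_left h0
  rcases h' P hP with h2 | h2
  · rw [h2, add_zero]
    exact h1
  have h3 : Ge P ⌈- ((m : ℚ) * δ P)⌉ (f + f') :=
    Ge.add (Or.inr (Int.ceil_le.2 h1)) (Or.inr (Int.ceil_le.2 h2))
  exact Int.ceil_le.1 (h3.resolve_left h0)

theorem s1_mul {m m' : ℕ} {f f' : K} (h : S1 N δ m f) (h' : S1 N δ m' f') :
    S1 N δ (m + m') (f * f') := by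
  intro P hP
  by_cases h0 : f = 0
  · left
    rw [h0, zero_mul]
  by_cases h0' : f' = 0
  · left
    rw [h0', mul_zero]
  right
  have h1 := (h P hP).resolve_left h0
  have h2 := (h' P hP).resolve_left h0'
  rw [P.ord_mul h0 h0']
  push_cast
  linarith

theorem s1_pow {m : ℕ} {f : K} (h : S1 N δ m f) (k : ℕ) : S1 N δ (m * k) (f ^ k) := by
  induction k with
  | zero =>
    rw [mul_zero, pow_zero]
    have h1 := s1_const (N := N) (δ := δ) (K := K) 1
    rwa [map_one] at h1
  | succ k ih =>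
    rw [mul_add, mul_one, pow_succ]
    exact s1_mul ih h

/-- the Iitaka field -/
def IF (N : ℕ) (δ : Place ℂ K → ℚ) : IntermediateField ℂ K where
  carrier := {z | ∃ (m : ℕ) (f g : K), S1 N δ m f ∧ S1 N δ m g ∧ g ≠ 0 ∧ z = f / g}
  mul_mem' := by
    rintro _ _ ⟨m, f, g, hf, hg, hg0, rfl⟩ ⟨m', f', g', hf', hg', hg0', rfl⟩
    exact ⟨m + m', f * f', g * g', s1_mul hf hf', s1_mul hg hg', mul_ne_zero hg0 hg0',
      div_mul_div_comm _ _ _ _⟩
  add_mem' := by
    rintro _ _ ⟨m, f, g, hf, hg, hg0, rfl⟩ ⟨m', f', g', hf', hg', hg0', rfl⟩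
    refine ⟨m + m', f * g' + g * f', g * g', s1_add (s1_mul hf hg') (s1_mul hg hf'),
      s1_mul hg hg', mul_ne_zero hg0 hg0', ?_⟩
    rw [div_add_div _ _ hg0 hg0']
  algebraMap_mem' := by
    intro a
    refine ⟨0, algebraMap ℂ K a, 1, s1_const a, ?_, one_ne_zero, by rw [div_one]⟩
    have h1 := s1_const (N := N) (δ := δ) (K := K) 1
    rwa [map_one] at h1
  inv_mem' := by
    rintro _ ⟨m, f, g, hf, hg, hg0, rfl⟩
    by_cases h0 : f = 0
    · rw [h0, zero_div, inv_zero]
      refine ⟨m, 0, g, s1_zero m, hg, hg0, by rw [zero_div]⟩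
    · exact ⟨m, g, f, hg, hf, h0, inv_div _ _⟩

theorem mem_IF {z : K} : z ∈ IF N δ ↔
    ∃ (m : ℕ) (f g : K), S1 N δ m f ∧ S1 N δ m g ∧ g ≠ 0 ∧ z = f / g := Iff.rfl

/-- common denominators -/
theorem common_den (s : Finset K) (hs : ∀ z ∈ s, z ∈ IF N δ) :
    ∃ (m : ℕ) (g : K), S1 N δ m g ∧ g ≠ 0 ∧ ∀ z ∈ s, S1 N δ m (z * g) := by
  classical
  induction s using Finset.induction_on with
  | empty =>
    refine ⟨0, 1, ?_, one_ne_zero, fun z hz => absurd hz (Finset.notMem_empty z)⟩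
    have h1 := s1_const (N := N) (δ := δ) (K := K) 1
    rwa [map_one] at h1
  | insert z s hz ih =>
    obtain ⟨m, g, hg, hg0, h⟩ := ih fun w hw => hs w (Finset.mem_insert_of_mem hw)
    obtain ⟨m', f, g', hf, hg', hg0', rfl⟩ := hs z (Finset.mem_insert_self z s)
    refine ⟨m + m', g * g', s1_mul hg hg', mul_ne_zero hg0 hg0', fun w hw => ?_⟩
    rcases Finset.mem_insert.1 hw with rfl | hw
    · have h1 : f / g' * (g * g') = g * f := by
        field_simp
      rw [h1]
      exact s1_mul hg hf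
    · rw [← mul_assoc]
      exact s1_mul (h w hw) hg'

/-- **The Iitaka field is algebraically closed in the function field.** -/
theorem mem_IF_of_algebraic {z : K} (hz : IsAlgebraic (IF N δ) z) : z ∈ IF N δ := by
  classical
  obtain ⟨q, hq, hq0⟩ := hz.isIntegral
  rw [← Polynomial.aeval_def, Polynomial.aeval_eq_sum_range, Finset.sum_range_succ,
    hq.coeff_natDegree, one_smul] at hq0
  obtain ⟨k, hk⟩ : ∃ k, k = q.natDegree := ⟨_, rfl⟩
  rw [← hk] at hq0
  obtain ⟨m, g, hg, hg0, hcd⟩ := common_den (N := N) (δ := δ)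
    ((Finset.range k).image fun i => ((q.coeff i : IF N δ) : K)) (by
      intro w hw
      obtain ⟨i, -, rfl⟩ := Finset.mem_image.1 hw
      exact (q.coeff i).2)
  have hc : ∀ i ∈ Finset.range k, S1 N δ m ((q.coeff i : K) * g) := fun i hi =>
    hcd _ (Finset.mem_image_of_mem _ hi)
  refine ⟨m, z * g, g, ?_, hg, hg0, by field_simp⟩
  intro P hP
  by_cases h0 : z * g = 0
  · exact Or.inl h0
  right
  by_contra hcon
  push Not at hcon
  obtain ⟨ζ, hζ⟩ : ∃ ζ, ζ = z * g := ⟨_, rfl⟩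
  rw [← hζ] at h0 hcon
  have hgP := (hg P hP).resolve_left hg0
  have hterm : ∀ i ∈ Finset.range k, Ge P (k * P.ord ζ + 1)
      (((q.coeff i : K) * g) * g ^ (k - 1 - i) * ζ ^ i) := by
    intro i hi
    rw [Finset.mem_range] at hi
    rcases hc i (Finset.mem_range.2 hi) P hP with h1 | h1
    · left
      rw [h1, zero_mul, zero_mul]
    by_cases h2 : (q.coeff i : K) * g = 0
    · left
      rw [h2, zero_mul, zero_mul]
    right
    rw [P.ord_mul (mul_ne_zero h2 (pow_ne_zero _ hg0)) (pow_ne_zero _ h0),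
      P.ord_mul h2 (pow_ne_zero _ hg0), P.ord_pow, P.ord_pow]
    have h3 : ((k - 1 - i : ℕ) : ℤ) = k - 1 - i := by omega
    rw [h3]
    have h4 : (k : ℚ) * P.ord ζ < P.ord ((q.coeff i : K) * g) + (k - 1 - i) * P.ord g +
        i * P.ord ζ := by
      have h5 : (0 : ℚ) ≤ k - 1 - i := by
        have : (i : ℚ) + 1 ≤ k := by exact_mod_cast hi
        linarith
      have h6 := mul_le_mul_of_nonneg_left hgP h5
      have h7 : (0 : ℚ) < k - i := by linarith
      have h8 := mul_lt_mul_of_pos_left hcon h7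
      nlinarith
    have h5 : (k : ℤ) * P.ord ζ < P.ord ((q.coeff i : K) * g) + (k - 1 - i) * P.ord g +
        i * P.ord ζ := by exact_mod_cast h4
    linarith
  have hsum : ζ ^ k = - ∑ i ∈ Finset.range k,
      (((q.coeff i : K) * g) * g ^ (k - 1 - i) * ζ ^ i) := by
    have h1 : ∑ i ∈ Finset.range k, (((q.coeff i : K) * g) * g ^ (k - 1 - i) * ζ ^ i) =
        (∑ i ∈ Finset.range k, q.coeff i • z ^ i) * g ^ k := by
      rw [Finset.sum_mul]
      refine Finset.sum_congr rfl fun i hi => ?_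
      rw [Finset.mem_range] at hi
      have h2 : g ^ k = g * g ^ (k - 1 - i) * g ^ i := by
        rw [← pow_succ', ← pow_add]
        congr 1
        omega
      have h3 : q.coeff i • z ^ i = (q.coeff i : K) * z ^ i := rfl
      rw [h2, h3, hζ, mul_pow]
      ring
    rw [h1, hζ, mul_pow]
    linear_combination (g ^ k) * hq0
  have h1 : Ge P (k * P.ord ζ + 1) (ζ ^ k) := by
    rw [hsum]
    have h2 : Ge P (k * P.ord ζ + 1) (∑ i ∈ Finset.range k,
        (((q.coeff i : K) * g) * g ^ (k - 1 - i) * ζ ^ i)) := Ge.sum _ _ hterm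
    exact h2.neg
  have h2 := h1.resolve_left (pow_ne_zero _ h0)
  rw [P.ord_pow] at h2
  linarith

end Pool.Agent.Q57.IK
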