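import Pool.Agent.Q57.IK.Field
import Pool.Agent.Q57.FT.Fan

/-!
The Iitaka fields of toroidal divisors, on covers of products of projective spaces: divisors with
nonpositive coefficients.
-/

set_option autoImplicit false
set_option linter.overlappingInstances false
set_option linter.unusedSectionVars false
set_option maxHeartbeats 1000000

open FF MvPolynomial Pool.Agent.W603.LV Pool.Agent.W602.GT Pool.Agent.W602.Cov
open Pool.Agent.TH756.PR Pool.Agent.TH122.AB Pool.Agent.TH756.PN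
open Pool.Agent.Y169.CH Pool.Agent.Y169.CH.Cvr Pool.Agent.Q57.TP Pool.Agent.Q57.TQ
open Pool.Agent.Q57.GM Pool.Agent.Q57.GH Pool.Agent.Q57.FG Pool.Agent.Q57.GG Pool.Agent.Q57.FT

namespace Pool.Agent.Q57.IK

variable {r R N' : ℕ} {n : Fin r → ℕ} {K : Type} [Field K] [Algebra ℂ K]
  {e : ((i : Fin r) × Fin (n i)) ≃ Fin (N' + 1)} {Φ : Blk ℂ (N' + 1) r} {C : Cvr Φ K R}
  {dF : Fin r → ℕ} {x : ∀ i, Fin (n i + 1) → K} {F : ∀ i, MvPolynomial (Fin (n i + 1)) ℂ}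
  {c : (Fin r → ℕ) → ℚ} {β : Fin r → ℤ} {δ : Place ℂ K → ℚ}

/-- the divisor in affine coordinates -/
theorem coefF1 (H : Mon e C dF x F) (hcf : CoefT dF x F c β δ)
    (hle : ∀ v, Adm C.M C.a v → c v ≤ 0) :
    CoefF C c β (fun P => δ P + ∑ t, (β t : ℚ) * P.ord (x t 0)) := by
  refine ⟨hcf.h0, hle, fun P α v h => ?_⟩
  obtain ⟨α', l, v', hdat⟩ := H.exists_dat P
  obtain ⟨h1, h2⟩ := multA_unique h (datH_multA H hdat)
  subst h2
  rw [hcf.hδ P α' l v hdat, h1]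
  have h5 : ∑ t, (β t : ℚ) * ((α' t - P.ord (x t 0) : ℤ) : ℚ) =
      ∑ t, (β t : ℚ) * α' t - ∑ t, (β t : ℚ) * P.ord (x t 0) := by
    rw [← Finset.sum_sub_distrib]
    refine Finset.sum_congr rfl fun t _ => ?_
    push_cast
    ring
  rw [h5]
  ring

/-- the sections in affine coordinates -/
theorem secF1 (H : Mon e C dF x F) {m : ℕ} {f : K} (h : S1 (N' + 1) δ m f) :
    SecF (N' + 1) (fun P => δ P + ∑ t, (β t : ℚ) * P.ord (x t 0))
      (pw {1} 0) m (f * ∏ t, x t 0 ^ (- (β t * m))) := by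
  classical
  intro P hP
  by_cases hf : f = 0
  · left
    rw [hf, zero_mul]
  have hx0 : ∏ t, x t 0 ^ (- (β t * m)) ≠ 0 :=
    Finset.prod_ne_zero_iff.2 fun t _ => zpow_ne_zero _ (H.hx t 0)
  have hle := (h P hP).resolve_left hf
  refine Or.inr ⟨1, mem_pw.2 ⟨1, by simp, by simp⟩, one_ne_zero, ?_⟩
  rw [P.ord_mul hf hx0, ord_prod' P Finset.univ _ fun t _ => zpow_ne_zero _ (H.hx t 0), P.ord_one]
  have h1 : ∀ t, P.ord (x t 0 ^ (- (β t * m))) = - (β t * m * P.ord (x t 0)) := by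
    intro t
    rw [P.ord_zpow]
    ring
  rw [Finset.sum_congr rfl fun t _ => h1 t, Finset.sum_neg_distrib]
  have h2 : ((m : ℚ) * ∑ t, (β t : ℚ) * P.ord (x t 0)) = ∑ t, (β t : ℚ) * m * P.ord (x t 0) := by
    rw [Finset.mul_sum]
    exact Finset.sum_congr rfl fun t _ => by ring
  push_cast
  rw [mul_add, h2]
  linarith

/-- the exact points: the sections which are products of powers of the forms -/
structure ExK (T : Finset (Fin r → ℕ)) (dF : Fin r → ℕ) (c : (Fin r → ℕ) → ℚ) (β : Fin r → ℤ)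
    (m : ℕ) (y : Fin r → ℤ) : Prop where
  deg : ∀ t, (dF t : ℤ) * y t ≤ β t * m
  vec : ∀ s ∈ T, (m : ℚ) * (- c s) ≤ ∑ k, (y k : ℚ) * s k

/-- the functionals -/
def fnK (r : ℕ) (dd β : Fin r → ℤ) : Option (Fin r) → (((Fin 1 → ℤ) × (Fin r → ℤ)) →+ ℤ)
  | none => AddMonoidHom.mk' (fun γ => γ.1 0) (by
      intro x y
      rfl)
  | some t => AddMonoidHom.mk' (fun γ => dd t * γ.2 t - β t * γ.1 0) (by
      intro x y
      simp only [Prod.fst_add, Prod.snd_add, Pi.add_apply]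
      ring)

theorem fnK_none (r : ℕ) (dd β : Fin r → ℤ) (γ : (Fin 1 → ℤ) × (Fin r → ℤ)) :
    fnK r dd β none γ = γ.1 0 := rfl

theorem fnK_some (r : ℕ) (dd β : Fin r → ℤ) (γ : (Fin 1 → ℤ) × (Fin r → ℤ)) (t : Fin r) :
    fnK r dd β (some t) γ = dd t * γ.2 t - β t * γ.1 0 := rfl

/-- the pivot exponents -/
def piv (Φ : Blk ℂ (N' + 1) r) (y : Fin r → ℤ) (b : Fin (N' + 1)) : ℤ :=
  if b = Φ.c (Φ.τ b) then y (Φ.τ b) else 0

theorem prod_piv (C : Cvr Φ K R) (y : Fin r → ℤ) :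
    ∏ b, C.Y b ^ piv Φ y b = ∏ t, C.Y (Φ.c t) ^ y t := by
  classical
  rw [← Finset.prod_fiberwise_of_maps_to (s := Finset.univ) (t := (Finset.univ : Finset (Fin r)))
    (g := Φ.τ) (fun _ _ => Finset.mem_univ _)]
  refine Finset.prod_congr rfl fun t _ => ?_
  rw [Finset.prod_eq_single (Φ.c t)]
  · unfold piv
    rw [Φ.hc, if_pos rfl]
  · intro b hb hbt
    have h1 : Φ.τ b = t := (Finset.mem_filter.1 hb).2
    unfold piv
    rw [h1, if_neg hbt, zpow_zero]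
  · intro h
    exact absurd (Finset.mem_filter.2 ⟨Finset.mem_univ (Φ.c t), Φ.hc t⟩ :
      Φ.c t ∈ Finset.univ.filter fun b => Φ.τ b = t) h

/-- **The sections, up to a section of a lattice point, are in a finite-dimensional space.** -/
theorem fin_span (H : Mon e C dF x F) (hdF : ∀ i, 1 ≤ dF i) (hΦ : Smo Φ)
    (hcf : CoefT dF x F c β δ) (hle : ∀ v, Adm C.M C.a v → c v ≤ 0)
    (hmul : ∀ v (r : ℕ), 1 ≤ r → Adm C.M C.a v → - c (r • v) ≤ r * (- c v))
    {T : Finset (Fin r → ℕ)} (hTadm : ∀ s ∈ T, Adm C.M C.a s) :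
    ∃ (N0 : ℕ) (βK : Fin N0 → K) (C2 : ℕ), ∀ (m : ℕ) (f : K), S1 (N' + 1) δ m f →
      ∃ Rp : Fin N0 → MvPolynomial (Fin (N' + 1)) ℂ,
        f * ∏ t, x t 0 ^ (- (β t * m)) = ∑ i, aeval C.Y (Rp i) * βK i ∧
        ∀ i, ∀ a ∈ (Rp i).support, (∃ (m0 : ℕ) (y0 : Fin r → ℤ), ExK T dF c β m0 y0 ∧
            (m0 = 0 → y0 = 0) ∧ |(m : ℤ) - m0| ≤ C2 ∧
            ∀ t, |(dF t * (a (Φ.c t) : ℤ) - β t * m) - (dF t * y0 t - β t * m0)| ≤ C2) ∧
          ∀ t, ∀ b, Φ.τ b = t → b ≠ Φ.c t →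
            (a b : ℤ) ≤ β t * m + C2 - dF t * (a (Φ.c t) : ℤ) := by
  classical
  obtain ⟨L, hL, hden⟩ := Pool.Agent.Y169.TH.exists_den fun s : T => - c s.1
  choose q' hq' using hden
  obtain ⟨q, hq⟩ : ∃ q : Fin 1 → T → ℤ, q = fun _ s => q' s := ⟨_, rfl⟩
  have hqs : ∀ i (s : T), (L : ℚ) * (- c s.1) = q i s := fun i s => by
    rw [hq]
    exact hq' s
  obtain ⟨dd, hdd⟩ : ∃ dd : Fin r → ℤ, dd = fun t => (dF t : ℤ) := ⟨_, rfl⟩
  have hddt : ∀ t, dd t = dF t := fun t => by rw [hdd]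
  choose X hX using fun s : T => C.exists_dir (hTadm s.1 s.2).1 (hTadm s.1 s.2).2
  obtain ⟨N0, βK, Q, c1, hQ, hstr⟩ := sec_fun C hΦ X {1}
  obtain ⟨Cs, hCs⟩ := approx (consT T dd (fun _ : Fin 1 => β) L q) consT_inj
    (Sum.elim (fun _ => (L : ℤ) * c1) (Sum.elim (fun _ => 0) (Sum.elim (fun _ => 0)
      fun _ => (c1 : ℤ)))) (fnK r dd β)
  refine ⟨N0, fun i => βK i / Q, Cs + c1, fun m f hf => ?_⟩
  obtain ⟨Rp, hR, hRs⟩ := hstr (coefF1 H hcf hle) hmul m 0 _ (secF1 (e := e) (β := β) H hf)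
  rw [zero_add, pow_one] at hR
  refine ⟨Rp, ?_, fun i a ha => ⟨?_, fun t b hb hbc => ?_⟩⟩
  · have h1 : ∀ i, aeval C.Y (Rp i) * (βK i / Q) = (aeval C.Y (Rp i) * βK i) / Q := fun i => by
      ring
    rw [Finset.sum_congr rfl fun i _ => h1 i, ← Finset.sum_div, ← hR]
    field_simp
  · obtain ⟨hwbd, hT1⟩ := hRs i a ha
    obtain ⟨a', ha'⟩ : ∃ a' : Fin r → ℤ, a' = fun k => (a (Φ.c k) : ℤ) := ⟨_, rfl⟩
    have hcons : ∀ s, - ((Sum.elim (fun _ => (L : ℤ) * c1) (Sum.elim (fun _ => 0)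
        (Sum.elim (fun _ => 0) fun _ => (c1 : ℤ))) :
          T ⊕ (Fin r ⊕ (Fin 1 ⊕ Fin r)) → ℤ) s * ((1 : ℕ) : ℤ)) ≤
        consT T dd (fun _ : Fin 1 => β) L q (fun _ => (m : ℤ), a') s := by
      intro s
      rcases s with s | k | i' | t
      · rw [consT_vec, Sum.elim_inl]
        have h1 := hT1 s
        rw [hX] at h1
        have hLq : (0 : ℚ) < L := by exact_mod_cast hL
        have h2 := mul_le_mul_of_nonneg_left h1 hLq.le
        have h4 : ((∑ i : Fin 1, q i s * (m : ℤ) : ℤ) : ℚ) = L * (m * (- c s.1)) := by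
          rw [Fin.sum_univ_one]
          push_cast
          rw [← hqs 0 s]
          ring
        have h3 : (((- ((L : ℤ) * c1 * ((1 : ℕ) : ℤ)) : ℤ)) : ℚ) ≤
            ((L * ∑ k, (s.1 k : ℤ) * a' k - ∑ i : Fin 1, q i s * (m : ℤ) : ℤ) : ℚ) := by
          rw [Int.cast_sub, h4, ha']
          push_cast at h2 ⊢
          linarith
        exact Int.cast_le.1 h3
      · rw [consT_coord, Sum.elim_inr, Sum.elim_inl, zero_mul, neg_zero, ha']
        positivity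
      · rw [consT_m, Sum.elim_inr, Sum.elim_inr, Sum.elim_inl, zero_mul, neg_zero]
        positivity
      · rw [consT_deg, Sum.elim_inr, Sum.elim_inr, Sum.elim_inr, hddt, Fin.sum_univ_one]
        have h1 := hwbd t
        rw [wbd_c, H.hΦD] at h1
        push_cast at h1
        have h2 : (0 : ℤ) ≤ ∑ b ∈ Finset.univ.erase (Φ.c t),
            (if Φ.τ b = t then (a b : ℤ) else 0) := by
          refine Finset.sum_nonneg fun b _ => ?_
          split_ifs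
          · positivity
          · exact le_rfl
        rw [ha']
        push_cast
        linarith
    obtain ⟨γ0, hγ0, hγ0'⟩ := hCs _ 1 hcons
    have hm0 : 0 ≤ γ0.1 0 := hγ0 (Sum.inr (Sum.inr (Sum.inl 0)))
    have hy0 : ∀ k, 0 ≤ γ0.2 k := fun k => hγ0 (Sum.inr (Sum.inl k))
    obtain ⟨m0, hm0'⟩ : ∃ m0 : ℕ, (m0 : ℤ) = γ0.1 0 := ⟨(γ0.1 0).toNat, Int.toNat_of_nonneg hm0⟩
    have hdeg : ∀ t, (dF t : ℤ) * γ0.2 t ≤ β t * m0 := by
      intro t
      have h1 := hγ0 (Sum.inr (Sum.inr (Sum.inr t)))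
      rw [consT_deg, hddt, Fin.sum_univ_one] at h1
      rw [hm0']
      linarith
    refine ⟨m0, γ0.2, ⟨hdeg, fun s hs => ?_⟩, fun h0 => ?_, ?_, fun t => ?_⟩
    · have h1 := hγ0 (Sum.inl ⟨s, hs⟩)
      rw [consT_vec, Fin.sum_univ_one] at h1
      have hLq : (0 : ℚ) < L := by exact_mod_cast hL
      have h2 : (0 : ℚ) ≤ L * (∑ k, (γ0.2 k : ℚ) * s k - m0 * (- c s)) := by
        have h3 : ((0 : ℤ) : ℚ) ≤ ((L * ∑ k, (s k : ℤ) * γ0.2 k - q 0 ⟨s, hs⟩ * γ0.1 0 : ℤ) : ℚ) := by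
          exact_mod_cast h1
        rw [← hm0'] at h3
        push_cast at h3
        rw [← hqs 0 ⟨s, hs⟩] at h3
        have h4 : ∑ k, (s k : ℚ) * (γ0.2 k : ℚ) = ∑ k, (γ0.2 k : ℚ) * s k :=
          Finset.sum_congr rfl fun k _ => mul_comm _ _
        rw [h4] at h3
        refine h3.trans (le_of_eq ?_)
        ring
      have h3 := nonneg_of_mul_nonneg_right h2 hLq
      linarith
    · funext k
      have h1 := hdeg k
      rw [h0, Nat.cast_zero, mul_zero] at h1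
      have h2 : (1 : ℤ) ≤ dF k := by exact_mod_cast hdF k
      have h3 := hy0 k
      rw [Pi.zero_apply]
      nlinarith
    · have h1 := hγ0' none
      rw [fnK_none, fnK_none, ← hm0'] at h1
      push_cast at h1 ⊢
      linarith [show (0 : ℤ) ≤ c1 by positivity]
    · have h1 := hγ0' (some t)
      rw [fnK_some, fnK_some, ← hm0', hddt, ha'] at h1
      push_cast at h1 ⊢
      linarith [show (0 : ℤ) ≤ c1 by positivity]
  · obtain ⟨hwbd, -⟩ := hRs i a ha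
    have h1 := hwbd t
    rw [wbd_c, H.hΦD] at h1
    push_cast at h1
    have h2 : (a b : ℤ) ≤ ∑ b ∈ Finset.univ.erase (Φ.c t),
        (if Φ.τ b = t then (a b : ℤ) else 0) := by
      have h3 := Finset.single_le_sum (s := Finset.univ.erase (Φ.c t))
        (f := fun b => (if Φ.τ b = t then (a b : ℤ) else 0)) (fun b _ => by
          split_ifs
          · positivity
          · exact le_rfl) (Finset.mem_erase.2 ⟨hbc, Finset.mem_univ b⟩)
      beta_reduce at h3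
      rwa [if_pos hb] at h3
    push_cast
    linarith [show (0 : ℤ) ≤ Cs by positivity]

end Pool.Agent.Q57.IK
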