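import Pool.Agent.Q57.IK.Fin

/-!
The Iitaka fields of toroidal divisors, on covers of products of projective spaces: the main theorem
for divisors with nonpositive coefficients.
-/

set_option autoImplicit false
set_option linter.overlappingInstances false
set_option linter.unusedSectionVars false
set_option maxHeartbeats 1000000

open FF MvPolynomial Pool.Agent.W603.LV Pool.Agent.W602.GT Pool.Agent.W602.Cov
open Pool.Agent.TH756.PR Pool.Agent.TH122.AB Pool.Agent.TH756.PN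
open Pool.Agent.Y169.CH Pool.Agent.Y169.CH.Cvr Pool.Agent.Q57.TP Pool.Agent.Q57.TQ
open Pool.Agent.Q57.GM Pool.Agent.Q57.GH Pool.Agent.Q57.FG Pool.Agent.Q57.GG Pool.Agent.Q57.FT

namespace Pool.Agent.Q57.IK

/-- the factors in whose direction the divisor moves -/
def Slk {r : ℕ} (T : Finset (Fin r → ℕ)) (dF : Fin r → ℕ) (c : (Fin r → ℕ) → ℚ) (β : Fin r → ℤ)
    (t : Fin r) : Prop :=
  ∃ (m : ℕ) (y : Fin r → ℤ), 1 ≤ m ∧ ExK T dF c β m y ∧ (dF t : ℤ) * y t < β t * m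

variable {r R N' : ℕ} {n : Fin r → ℕ} {K : Type} [Field K] [Algebra ℂ K]
  {e : ((i : Fin r) × Fin (n i)) ≃ Fin (N' + 1)} {Φ : Blk ℂ (N' + 1) r} {C : Cvr Φ K R}
  {dF : Fin r → ℕ} {x : ∀ i, Fin (n i + 1) → K} {F : ∀ i, MvPolynomial (Fin (n i + 1)) ℂ}
  {c : (Fin r → ℕ) → ℚ} {β : Fin r → ℤ} {δ : Place ℂ K → ℚ} {T : Finset (Fin r → ℕ)}

theorem ExK.eq {m : ℕ} {y : Fin r → ℤ} (h : ExK T dF c β m y) (h0 : m = 0 → y = 0) {t : Fin r}
    (ht : ¬ Slk T dF c β t) : (dF t : ℤ) * y t = β t * m := by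
  rcases Nat.eq_zero_or_pos m with hm | hm
  · rw [h0 hm, hm]
    simp
  · exact le_antisymm (h.deg t) (not_lt.1 fun h1 => ht ⟨m, y, hm, h, h1⟩)

theorem Z_eq (H : Mon e C dF x F) (b : Fin (N' + 1)) :
    C.Z b = x (e.symm b).1 (e.symm b).2.succ / x (e.symm b).1 0 := by
  rw [H.hZ]
  rfl

/-- the new coordinates of a factor are in the field of the factor -/
theorem Y_mem (H : Mon e C dF x F) (L : IntermediateField ℂ K) {b : Fin (N' + 1)}
    (h : ∀ j, x (Φ.τ b) j / x (Φ.τ b) 0 ∈ L) : C.Y b ∈ L := by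
  classical
  have hZ : ∀ b', Φ.τ b' = Φ.τ b → C.Z b' ∈ L := by
    intro b' hb'
    rw [Z_eq H]
    rw [← hb', H.hτ] at h
    exact h _
  by_cases hb : b = Φ.c (Φ.τ b)
  · have h1 : C.Y b = aeval C.Z (Φ.F (Φ.τ b)) := by
      conv_lhs => rw [hb]
      rw [C.Y_c]
    rw [h1, aeval_def, eval₂_eq']
    refine L.sum_mem fun m hm => L.mul_mem (L.algebraMap_mem _) (L.prod_mem fun b' _ => ?_)
    by_cases hb' : Φ.τ b' = Φ.τ b
    · exact pow_mem (hZ b' hb') _
    · rw [Φ.hF1 _ m hm b' hb', pow_zero]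
      exact L.one_mem
  · rw [C.Y_n hb]
    exact hZ b rfl

/-- the sections of the exact points -/
theorem fT_sec1 (H : Mon e C dF x F) (hcf : CoefT dF x F c β δ)
    (hTgen : ∀ v, Adm C.M C.a v → ∃ w : (Fin r → ℕ) → ℚ, (∀ s, 0 ≤ w s) ∧
      (∀ k, (v k : ℚ) = ∑ s ∈ T, w s * s k) ∧ - c v ≤ ∑ s ∈ T, w s * (- c s))
    {m : ℕ} {y : Fin r → ℤ} (h : ExK T dF c β m y) (l : ∀ i, Fin (n i + 1)) :
    S1 (N' + 1) δ m (fT dF x F (fun t => β t * m) y l) := by
  intro P _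
  right
  obtain ⟨α, l', v, hdat⟩ := H.exists_dat P
  have h1 := ord_fT_ge H hdat (b := fun t => β t * m) (y := y) h.deg l
  have h2 : (m : ℚ) * (- c v) ≤ ((∑ k, (v k : ℤ) * y k : ℤ) : ℚ) := by
    by_cases hv : v = 0
    · rw [hv, hcf.h0]
      simp
    · obtain ⟨w, hw, hwv, hwc⟩ := hTgen v (hdat.adm H hv)
      have h3 := mul_le_mul_of_nonneg_left hwc (by positivity : (0 : ℚ) ≤ m)
      refine h3.trans ?_
      rw [Finset.mul_sum]
      have h4 : ∑ s ∈ T, (m : ℚ) * (w s * (- c s)) ≤ ∑ s ∈ T, w s * ∑ k, (y k : ℚ) * s k := by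
        refine Finset.sum_le_sum fun s hs => ?_
        have h5 := mul_le_mul_of_nonneg_left (h.vec s hs) (hw s)
        linarith
      refine h4.trans (le_of_eq ?_)
      push_cast
      simp only [Finset.mul_sum]
      rw [Finset.sum_comm]
      refine Finset.sum_congr rfl fun k _ => ?_
      rw [hwv k, Finset.sum_mul]
      exact Finset.sum_congr rfl fun s _ => by ring
  have h5 : ((∑ i, (v i : ℤ) * y i + ∑ i, β i * m * α i : ℤ) : ℚ) ≤
      (P.ord (fT dF x F (fun t => β t * m) y l) : ℚ) := by exact_mod_cast h1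
  rw [Int.cast_add] at h5
  rw [hcf.hδ P α l' v hdat]
  have h6 : ((∑ i, β i * m * α i : ℤ) : ℚ) = m * ∑ t, (β t : ℚ) * α t := by
    push_cast
    rw [Finset.mul_sum]
    exact Finset.sum_congr rfl fun t _ => by ring
  rw [h6] at h5
  rw [mul_sub]
  linarith

/-- **The quotients by the powers of the section of an exact point are in a finite-dimensional
space.** -/
theorem exists_W (H : Mon e C dF x F) (hdF : ∀ i, 1 ≤ dF i) (hΦ : Smo Φ)
    (hcf : CoefT dF x F c β δ) (hle : ∀ v, Adm C.M C.a v → c v ≤ 0)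
    (hmul : ∀ v (r : ℕ), 1 ≤ r → Adm C.M C.a v → - c (r • v) ≤ r * (- c v))
    (hTadm : ∀ s ∈ T, Adm C.M C.a s) (L : IntermediateField ℂ K)
    (hL : ∀ t, Slk T dF c β t → ∀ j, x t j / x t 0 ∈ L) {m0 : ℕ} (hm0 : 1 ≤ m0) {y0 : Fin r → ℤ}
    (h0 : ExK T dF c β m0 y0) :
    ∃ W : Finset K, ∀ (k : ℕ) (f : K), S1 (N' + 1) δ (m0 * k) f →
      f / fT dF x F (fun t => β t * m0) y0 (fun _ => 0) ^ k ∈ Submodule.span L (W : Set K) := by
  classical
  obtain ⟨N0, βK, C2, hstr⟩ := fin_span (e := e) (δ := δ) H hdF hΦ hcf hle hmul hTadm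
  have hYne : ∀ b, C.Y b ≠ 0 := fun b => C.ae_ne (Blk.yp_ne0 Φ b)
  obtain ⟨W, hW⟩ : ∃ W : Finset K, W = ((Finset.univ : Finset (Fin N0)) ×ˢ
    (Fintype.piFinset fun _ : Fin (N' + 1) => Finset.Icc (-(2 * C2 : ℤ)) (2 * C2))).image
      fun z => (∏ b, C.Y b ^ z.2 b) * βK z.1 := ⟨_, rfl⟩
  refine ⟨W, fun k f hf => ?_⟩
  obtain ⟨Rp, hR, hRs⟩ := hstr (m0 * k) f hf
  obtain ⟨s0, hs0⟩ : ∃ s0, s0 = fT dF x F (fun t => β t * m0) y0 (fun _ => 0) := ⟨_, rfl⟩
  rw [← hs0]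
  have hx0 : ∏ t, x t 0 ^ (- (β t * ((m0 * k : ℕ) : ℤ))) ≠ 0 :=
    Finset.prod_ne_zero_iff.2 fun t _ => zpow_ne_zero _ (H.hx t 0)
  -- the section of the exact point in affine coordinates
  have hs : s0 ^ k * ∏ t, x t 0 ^ (- (β t * ((m0 * k : ℕ) : ℤ))) =
      ∏ b, C.Y b ^ (k * piv Φ y0 b) := by
    have h1 : ∏ b, C.Y b ^ (k * piv Φ y0 b) = (∏ t, C.Y (Φ.c t) ^ y0 t) ^ k := by
      rw [← prod_piv, ← Finset.prod_pow]
      refine Finset.prod_congr rfl fun b _ => ?_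
      rw [mul_comm, zpow_mul, zpow_natCast]
    rw [h1, hs0]
    unfold fT
    rw [← Finset.prod_pow, ← Finset.prod_pow, ← Finset.prod_mul_distrib]
    refine Finset.prod_congr rfl fun t _ => ?_
    rw [C.Y_c, H.hFZ, div_zpow, ← zpow_natCast (x t 0) (dF t), ← zpow_mul]
    have h2 : x t 0 ^ (- (β t * ((m0 * k : ℕ) : ℤ))) = (x t 0 ^ (- (β t * (m0 : ℤ)))) ^ k := by
      rw [← zpow_natCast (x t 0 ^ (- (β t * (m0 : ℤ)))) k, ← zpow_mul]
      congr 1
      push_cast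
      ring
    rw [h2, ← mul_pow]
    congr 1
    rw [mul_assoc, ← zpow_add₀ (H.hx t 0), div_eq_mul_inv, ← zpow_neg]
    congr 2
    ring
  have hs0' : s0 ≠ 0 := by
    rw [hs0]
    exact fT_ne H _ _ _
  have hden : ∏ b, C.Y b ^ (k * piv Φ y0 b) ≠ 0 :=
    Finset.prod_ne_zero_iff.2 fun b _ => zpow_ne_zero _ (hYne b)
  have hq : f / s0 ^ k = ∑ i, ∑ a ∈ (Rp i).support, coeff a (Rp i) •
      ((∏ b, C.Y b ^ ((a b : ℤ) - k * piv Φ y0 b)) * βK i) := by
    have h1 : f / s0 ^ k = (f * ∏ t, x t 0 ^ (- (β t * ((m0 * k : ℕ) : ℤ)))) /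
        (s0 ^ k * ∏ t, x t 0 ^ (- (β t * ((m0 * k : ℕ) : ℤ)))) := by
      rw [mul_div_mul_right _ _ hx0]
    rw [h1, hs, hR, Finset.sum_div]
    refine Finset.sum_congr rfl fun i _ => ?_
    have h3 : aeval C.Y (Rp i) = ∑ a ∈ (Rp i).support, algebraMap ℂ K (coeff a (Rp i)) *
        ∏ b, C.Y b ^ a b := by
      conv_lhs => rw [(Rp i).as_sum, map_sum]
      refine Finset.sum_congr rfl fun a _ => ?_
      rw [aeval_monomial, Finsupp.prod_fintype _ _ fun i => pow_zero _]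
    rw [h3, Finset.sum_mul, Finset.sum_div]
    refine Finset.sum_congr rfl fun a _ => ?_
    rw [Algebra.smul_def]
    have h4 : ∏ b, C.Y b ^ ((a b : ℤ) - k * piv Φ y0 b) =
        (∏ b, C.Y b ^ a b) / ∏ b, C.Y b ^ (k * piv Φ y0 b) := by
      rw [← Finset.prod_div_distrib]
      refine Finset.prod_congr rfl fun b _ => ?_
      rw [zpow_sub₀ (hYne b), zpow_natCast]
    rw [h4]
    ring
  rw [hq]
  refine Submodule.sum_mem _ fun i _ => Submodule.sum_mem _ fun a ha => ?_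
  obtain ⟨⟨m1, y1, hE1, hE10, -, hy1⟩, hbb⟩ := hRs i a ha
  obtain ⟨w1, hw1⟩ : ∃ w1 : Fin (N' + 1) → ℤ, w1 = fun b =>
    if Slk T dF c β (Φ.τ b) then (a b : ℤ) - k * piv Φ y0 b else 0 := ⟨_, rfl⟩
  obtain ⟨w2, hw2⟩ : ∃ w2 : Fin (N' + 1) → ℤ, w2 = fun b =>
    if Slk T dF c β (Φ.τ b) then 0 else (a b : ℤ) - k * piv Φ y0 b := ⟨_, rfl⟩
  have hprod : ∏ b, C.Y b ^ ((a b : ℤ) - k * piv Φ y0 b) =
      (∏ b, C.Y b ^ w1 b) * ∏ b, C.Y b ^ w2 b := by
    rw [← Finset.prod_mul_distrib]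
    refine Finset.prod_congr rfl fun b _ => ?_
    rw [hw1, hw2]
    beta_reduce
    split_ifs
    · rw [zpow_zero, mul_one]
    · rw [zpow_zero, one_mul]
  have hL1 : ∏ b, C.Y b ^ w1 b ∈ L := by
    refine L.prod_mem fun b _ => ?_
    rw [hw1]
    beta_reduce
    split_ifs with h
    · exact zpow_mem (Y_mem H L (hL _ h)) _
    · rw [zpow_zero]
      exact L.one_mem
  have hL2 : algebraMap ℂ K (coeff a (Rp i)) * ∏ b, C.Y b ^ w1 b ∈ L :=
    L.mul_mem (L.algebraMap_mem _) hL1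
  have hterm : coeff a (Rp i) • ((∏ b, C.Y b ^ ((a b : ℤ) - k * piv Φ y0 b)) * βK i) =
      (⟨_, hL2⟩ : L) • ((∏ b, C.Y b ^ w2 b) * βK i) := by
    change _ = (algebraMap ℂ K (coeff a (Rp i)) * ∏ b, C.Y b ^ w1 b) *
      ((∏ b, C.Y b ^ w2 b) * βK i)
    rw [hprod, Algebra.smul_def]
    ring
  rw [hterm]
  refine Submodule.smul_mem _ _ (Submodule.subset_span ?_)
  rw [hW]
  refine Finset.mem_coe.2 (Finset.mem_image.2 ⟨(i, w2), Finset.mem_product.2
    ⟨Finset.mem_univ _, Fintype.mem_piFinset.2 fun b => ?_⟩, rfl⟩)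
  have hC2 : (0 : ℤ) ≤ C2 := by positivity
  rw [Finset.mem_Icc]
  change -(2 * (C2 : ℤ)) ≤ w2 b ∧ w2 b ≤ 2 * (C2 : ℤ)
  by_cases h : Slk T dF c β (Φ.τ b)
  · have hv : w2 b = 0 := by
      rw [hw2]
      beta_reduce
      rw [if_pos h]
    rw [hv]
    constructor <;> linarith
  · -- the bounds
    have hv : w2 b = (a b : ℤ) - k * piv Φ y0 b := by
      rw [hw2]
      beta_reduce
      rw [if_neg h]
    rw [hv]
    obtain ⟨t, ht⟩ : ∃ t, t = Φ.τ b := ⟨_, rfl⟩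
    rw [← ht] at h
    have h1 := hE1.eq hE10 h
    have h2 := h0.eq (fun h => absurd h (by omega)) h
    have h3 := hy1 t
    rw [h1, sub_self, sub_zero] at h3
    have hd1 : (1 : ℤ) ≤ dF t := by exact_mod_cast hdF t
    by_cases hb : b = Φ.c (Φ.τ b)
    · have h4 : piv Φ y0 b = y0 t := by
        unfold piv
        rw [if_pos hb, ht]
      rw [← ht] at hb
      rw [h4]
      have h5 : (dF t : ℤ) * (a b : ℤ) - β t * ((m0 * k : ℕ) : ℤ) =
          dF t * ((a b : ℤ) - k * y0 t) := by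
        push_cast
        have h6 : β t * ((m0 : ℤ) * k) = k * (β t * m0) := by ring
        rw [h6, ← h2]
        ring
      rw [← hb, h5, abs_mul, abs_of_nonneg (by linarith : (0 : ℤ) ≤ dF t)] at h3
      have h6 : |(a b : ℤ) - k * y0 t| ≤ C2 := by
        have h7 := abs_nonneg ((a b : ℤ) - k * y0 t)
        nlinarith
      have h7 := abs_le.1 h6
      constructor <;> linarith
    · have h4 : piv Φ y0 b = 0 := by
        unfold piv
        rw [if_neg hb]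
      rw [h4, mul_zero, sub_zero]
      rw [← ht] at hb
      have h5 := hbb t b ht.symm hb
      have h6 := (abs_le.1 h3).1
      have h7 : (0 : ℤ) ≤ a b := by positivity
      constructor <;> linarith

/-- the quotients are algebraic -/
theorem algebraic_quot (H : Mon e C dF x F) (hdF : ∀ i, 1 ≤ dF i) (hΦ : Smo Φ)
    (hcf : CoefT dF x F c β δ) (hle : ∀ v, Adm C.M C.a v → c v ≤ 0)
    (hmul : ∀ v (r : ℕ), 1 ≤ r → Adm C.M C.a v → - c (r • v) ≤ r * (- c v))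
    (hTadm : ∀ s ∈ T, Adm C.M C.a s) (L : IntermediateField ℂ K)
    (hL : ∀ t, Slk T dF c β t → ∀ j, x t j / x t 0 ∈ L) {m0 : ℕ} (hm0 : 1 ≤ m0) {y0 : Fin r → ℤ}
    (h0 : ExK T dF c β m0 y0) {k : ℕ} {f : K} (hf : S1 (N' + 1) δ (m0 * k) f) :
    IsAlgebraic L (f / fT dF x F (fun t => β t * m0) y0 (fun _ => 0) ^ k) := by
  classical
  obtain ⟨W, hW⟩ := exists_W (e := e) (δ := δ) H hdF hΦ hcf hle hmul hTadm L hL hm0 h0
  obtain ⟨u, hu⟩ : ∃ u, u = f / fT dF x F (fun t => β t * m0) y0 (fun _ => 0) ^ k := ⟨_, rfl⟩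
  rw [← hu]
  have hpow : ∀ j : ℕ, u ^ j ∈ Submodule.span L (W : Set K) := by
    intro j
    have h1 := hW (k * j) (f ^ j) (by
      have h2 := s1_pow hf j
      rwa [mul_assoc] at h2)
    rwa [pow_mul, ← div_pow, ← hu] at h1
  have hle' : Subalgebra.toSubmodule (Algebra.adjoin L {u}) ≤ Submodule.span L (W : Set K) := by
    intro z hz
    rw [Subalgebra.mem_toSubmodule, Algebra.adjoin_singleton_eq_range_aeval] at hz
    obtain ⟨q, rfl⟩ := hz
    change Polynomial.aeval u q ∈ _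
    rw [Polynomial.aeval_eq_sum_range]
    exact Submodule.sum_mem _ fun i _ => Submodule.smul_mem _ _ (hpow i)
  have hN : IsNoetherian L (Submodule.span L (W : Set K)) :=
    isNoetherian_span_of_finite L W.finite_toSet
  have hfg := isNoetherian_submodule.1 hN _ hle'
  exact (IsIntegral.of_mem_of_fg _ hfg u (Algebra.self_mem_adjoin_singleton L u)).isAlgebraic

/-- **The Iitaka field.** -/
theorem iitA (H : Mon e C dF x F) (hdF : ∀ i, 1 ≤ dF i) (hΦ : Smo Φ)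
    (hcf : CoefT dF x F c β δ) (hle : ∀ v, Adm C.M C.a v → c v ≤ 0)
    (hmul : ∀ v (r : ℕ), 1 ≤ r → Adm C.M C.a v → - c (r • v) ≤ r * (- c v))
    (hTadm : ∀ s ∈ T, Adm C.M C.a s)
    (hTgen : ∀ v, Adm C.M C.a v → ∃ w : (Fin r → ℕ) → ℚ, (∀ s, 0 ≤ w s) ∧
      (∀ k, (v k : ℚ) = ∑ s ∈ T, w s * s k) ∧ - c v ≤ ∑ s ∈ T, w s * (- c s))
    (L : IntermediateField ℂ K) (hL : ∀ t, Slk T dF c β t → ∀ j, x t j / x t 0 ∈ L)
    (hL' : ∀ L' : IntermediateField ℂ K, (∀ t, Slk T dF c β t → ∀ j, x t j / x t 0 ∈ L') →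
      L ≤ L') (hex : ∃ m, 1 ≤ m ∧ ∃ f : K, f ≠ 0 ∧ S1 (N' + 1) δ m f) (z : K) :
    z ∈ IF (N' + 1) δ ↔ IsAlgebraic L z := by
  classical
  constructor
  · -- the quotients of the sections
    obtain ⟨m, hm, f, hf0, hf⟩ := hex
    obtain ⟨N0, βK, C2, hstr⟩ := fin_span (e := e) (δ := δ) H hdF hΦ hcf hle hmul hTadm
    obtain ⟨m0, hm0, y0, h0⟩ : ∃ m0, 1 ≤ m0 ∧ ∃ y0, ExK T dF c β m0 y0 := by
      obtain ⟨Rp, hR, hRs⟩ := hstr (m * (C2 + 1)) _ (s1_pow hf (C2 + 1))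
      have hne : ∃ i, (Rp i).support.Nonempty := by
        by_contra hcon
        push Not at hcon
        have h1 : ∑ i, aeval C.Y (Rp i) * βK i = 0 := by
          refine Finset.sum_eq_zero fun i _ => ?_
          have h2 : Rp i = 0 := by
            rw [← MvPolynomial.support_eq_empty]
            exact hcon i
          rw [h2, map_zero, zero_mul]
        rw [h1] at hR
        exact (mul_ne_zero (pow_ne_zero _ hf0) (Finset.prod_ne_zero_iff.2 fun t _ =>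
          zpow_ne_zero _ (H.hx t 0))) hR
      obtain ⟨i, a, ha⟩ := hne
      obtain ⟨⟨m0, y0, hE, -, hm0, -⟩, -⟩ := hRs i a ha
      refine ⟨m0, ?_, y0, hE⟩
      have h1 := (abs_le.1 hm0).2
      have h2 : ((m * (C2 + 1) : ℕ) : ℤ) ≥ C2 + 1 := by
        push_cast
        have : (1 : ℤ) ≤ m := by exact_mod_cast hm
        nlinarith [show (0 : ℤ) ≤ C2 by positivity]
      have h3 : (1 : ℤ) ≤ m0 := by linarith
      exact_mod_cast h3
    rintro ⟨m', f', g', hf', hg', hg0', rfl⟩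
    have h1 : IsAlgebraic L (f' ^ m0 / fT dF x F (fun t => β t * m0) y0 (fun _ => 0) ^ m') :=
      algebraic_quot (e := e) (δ := δ) H hdF hΦ hcf hle hmul hTadm L hL hm0 h0 (by
        have h2 := s1_pow hf' m0
        rwa [mul_comm] at h2)
    have h2 : IsAlgebraic L (g' ^ m0 / fT dF x F (fun t => β t * m0) y0 (fun _ => 0) ^ m') :=
      algebraic_quot (e := e) (δ := δ) H hdF hΦ hcf hle hmul hTadm L hL hm0 h0 (by
        have h2 := s1_pow hg' m0
        rwa [mul_comm] at h2)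
    have h3 : (f' / g') ^ m0 = (f' ^ m0 / fT dF x F (fun t => β t * m0) y0 (fun _ => 0) ^ m') *
        (g' ^ m0 / fT dF x F (fun t => β t * m0) y0 (fun _ => 0) ^ m')⁻¹ := by
      have h4 := pow_ne_zero m' (fT_ne H (fun t => β t * m0) y0 (fun _ => 0))
      have h5 := pow_ne_zero m0 hg0'
      rw [div_pow]
      field_simp
    have h4 : IsAlgebraic L ((f' / g') ^ m0) := by
      rw [h3]
      exact h1.mul h2.inv
    exact IsAlgebraic.of_pow hm0 h4
  · intro hz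
    have hLI : L ≤ IF (N' + 1) δ := by
      refine hL' _ fun t ht j => ?_
      obtain ⟨m1, y1, -, hE, hlt⟩ := ht
      have hsec := fT_sec1 (δ := δ) H hcf hTgen hE
      obtain ⟨e1, he1⟩ : ∃ e1 : ℕ, (e1 : ℤ) = β t * m1 - dF t * y1 t :=
        ⟨(β t * m1 - dF t * y1 t).toNat, Int.toNat_of_nonneg (by linarith)⟩
      have he1' : 0 < e1 := by
        have : (0 : ℤ) < e1 := by linarith
        exact_mod_cast this
      have h1 : (x t j / x t 0) ^ e1 =
          fT dF x F (fun t => β t * m1) y1 (Function.update (fun _ => 0) t j) /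
          fT dF x F (fun t => β t * m1) y1 (fun _ => 0) := by
        unfold fT
        rw [← Finset.prod_div_distrib, Finset.prod_eq_single t]
        · rw [Function.update_self, mul_div_mul_left _ _ (zpow_ne_zero _ (H.hFx t)), ← he1,
            zpow_natCast, zpow_natCast, div_pow]
        · intro t' _ ht'
          rw [Function.update_of_ne ht']
          exact div_self (mul_ne_zero (zpow_ne_zero _ (H.hFx t')) (zpow_ne_zero _ (H.hx t' _)))
        · intro h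
          exact absurd (Finset.mem_univ _) h
      have h2 : (x t j / x t 0) ^ e1 ∈ IF (N' + 1) δ := by
        rw [h1]
        exact ⟨m1, _, _, hsec _, hsec _, fT_ne H _ _ _, rfl⟩
      refine mem_IF_of_algebraic (IsAlgebraic.of_pow he1' ?_)
      exact isAlgebraic_algebraMap (⟨_, h2⟩ : IF (N' + 1) δ)
    refine mem_IF_of_algebraic ?_
    obtain ⟨q, hq0, hq⟩ := hz
    refine ⟨q.map (IntermediateField.inclusion hLI).toRingHom, ?_, ?_⟩
    · intro h
      exact hq0 ((Polynomial.map_eq_zero _).1 h)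
    · rw [Polynomial.aeval_def, Polynomial.eval₂_map]
      exact hq

end Pool.Agent.Q57.IK
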