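import Pool.Agent.Q57.IK.Main
import Pool.Agent.Q57.FT.Shift

/-!
The Iitaka fields of toroidal divisors, on covers of products of projective spaces: divisors with
arbitrary coefficients.
-/

set_option autoImplicit false
set_option linter.overlappingInstances false
set_option linter.unusedSectionVars false
set_option maxHeartbeats 1000000

open FF MvPolynomial Pool.Agent.W603.LV Pool.Agent.W602.GT Pool.Agent.W602.Cov
open Pool.Agent.TH756.PR Pool.Agent.TH122.AB Pool.Agent.TH756.PN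
open Pool.Agent.Y169.CH Pool.Agent.Y169.CH.Cvr Pool.Agent.Q57.TP Pool.Agent.Q57.TQ
open Pool.Agent.Q57.GM Pool.Agent.Q57.GH Pool.Agent.Q57.FG Pool.Agent.Q57.GG Pool.Agent.Q57.FT

namespace Pool.Agent.Q57.IK

variable {r R N' : ℕ} {n : Fin r → ℕ} {K : Type} [Field K] [Algebra ℂ K]
  {e : ((i : Fin r) × Fin (n i)) ≃ Fin (N' + 1)} {Φ : Blk ℂ (N' + 1) r} {C : Cvr Φ K R}
  {dF : Fin r → ℕ} {x : ∀ i, Fin (n i + 1) → K} {F : ∀ i, MvPolynomial (Fin (n i + 1)) ℂ}
  {c : (Fin r → ℕ) → ℚ} {β : Fin r → ℤ} {δ : Place ℂ K → ℚ} {T : Finset (Fin r → ℕ)}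

/-- the sections after the shift -/
theorem s1_shift (H : Mon e C dF x F) {t0 m : ℕ} {f : K} :
    S1 (N' + 1) (fun P => δ P - t0 * P.ord (tht x F)) m (f * tht x F ^ (t0 * m)) ↔
      S1 (N' + 1) δ m f := by
  have hθ := tht_ne H
  refine forall₂_congr fun P _ => ?_
  by_cases hf : f = 0
  · rw [hf, zero_mul]
    simp
  have h1 : f * tht x F ^ (t0 * m) ≠ 0 := mul_ne_zero hf (pow_ne_zero _ hθ)
  rw [or_iff_right h1, or_iff_right hf, P.ord_mul hf (pow_ne_zero _ hθ), P.ord_pow]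
  push_cast
  constructor
  · intro h
    linarith
  · intro h
    linarith

theorem s1_shift' (H : Mon e C dF x F) {t0 m : ℕ} {f : K}
    (h : S1 (N' + 1) (fun P => δ P - t0 * P.ord (tht x F)) m f) :
    S1 (N' + 1) δ m (f * (tht x F ^ (t0 * m))⁻¹) := by
  refine (s1_shift (t0 := t0) H).1 ?_
  rwa [inv_mul_cancel_right₀ (pow_ne_zero _ (tht_ne H))]

/-- the Iitaka field after the shift -/
theorem if_shift (H : Mon e C dF x F) (t0 : ℕ) (z : K) :
    z ∈ IF (N' + 1) (fun P => δ P - t0 * P.ord (tht x F)) ↔ z ∈ IF (N' + 1) δ := by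
  have hθ := tht_ne H
  constructor
  · rintro ⟨m, f, g, hf, hg, hg0, rfl⟩
    refine ⟨m, _, _, s1_shift' H hf, s1_shift' H hg,
      mul_ne_zero hg0 (inv_ne_zero (pow_ne_zero _ hθ)), ?_⟩
    rw [mul_div_mul_right _ _ (inv_ne_zero (pow_ne_zero _ hθ))]
  · rintro ⟨m, f, g, hf, hg, hg0, rfl⟩
    refine ⟨m, _, _, (s1_shift (t0 := t0) H).2 hf, (s1_shift (t0 := t0) H).2 hg,
      mul_ne_zero hg0 (pow_ne_zero _ hθ), ?_⟩
    rw [mul_div_mul_right _ _ (pow_ne_zero _ hθ)]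

theorem exK_shift {t0 m : ℕ} {y : Fin r → ℤ} :
    ExK T dF (fun v => c v - t0 * ∑ k, (v k : ℚ)) (fun t => β t + t0 * dF t) m
      (fun k => y k + t0 * m) ↔ ExK T dF c β m y := by
  have h1 : ∀ s : Fin r → ℕ, (m : ℚ) * -(c s - t0 * ∑ k, (s k : ℚ)) =
      m * (- c s) + t0 * m * ∑ k, (s k : ℚ) := fun s => by ring
  have h2 : ∀ s : Fin r → ℕ, ∑ k, ((y k + t0 * m : ℤ) : ℚ) * s k =
      ∑ k, (y k : ℚ) * s k + t0 * m * ∑ k, (s k : ℚ) := fun s => by
    rw [Finset.mul_sum, ← Finset.sum_add_distrib]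
    refine Finset.sum_congr rfl fun k _ => ?_
    push_cast
    ring
  constructor
  · intro h
    refine ⟨fun t => ?_, fun s hs => ?_⟩
    · have h3 := h.deg t
      beta_reduce at h3
      have h4 : (dF t : ℤ) * (y t + t0 * m) = dF t * y t + t0 * dF t * m := by ring
      rw [h4, add_mul] at h3
      linarith
    · have h3 := h.vec s hs
      beta_reduce at h3
      rw [h1, h2] at h3
      linarith
  · intro h
    refine ⟨fun t => ?_, fun s hs => ?_⟩
    · have h3 := h.deg t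
      have h4 : (dF t : ℤ) * (y t + t0 * m) = dF t * y t + t0 * dF t * m := by ring
      beta_reduce
      rw [h4, add_mul]
      linarith
    · have h3 := h.vec s hs
      beta_reduce
      rw [h1, h2]
      linarith

theorem slk_shift {t0 : ℕ} {t : Fin r} :
    Slk T dF (fun v => c v - t0 * ∑ k, (v k : ℚ)) (fun t => β t + t0 * dF t) t ↔
      Slk T dF c β t := by
  constructor
  · rintro ⟨m, y, hm, h, hlt⟩
    obtain ⟨y', hy'⟩ : ∃ y' : Fin r → ℤ, y' = fun k => y k - t0 * m := ⟨_, rfl⟩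
    have h1 : y = fun k => y' k + t0 * m := by
      funext k
      rw [hy']
      ring
    subst h1
    refine ⟨m, y', hm, exK_shift.1 h, ?_⟩
    beta_reduce at hlt
    have h4 : (dF t : ℤ) * (y' t + t0 * m) = dF t * y' t + t0 * dF t * m := by ring
    rw [h4, add_mul] at hlt
    linarith
  · rintro ⟨m, y, hm, h, hlt⟩
    refine ⟨m, _, hm, exK_shift.2 h, ?_⟩
    beta_reduce
    have h4 : (dF t : ℤ) * (y t + t0 * m) = dF t * y t + t0 * dF t * m := by ring
    rw [h4, add_mul]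
    linarith

/-- **The Iitaka field**, for divisors with arbitrary coefficients. -/
theorem iitB (H : Mon e C dF x F) (hdF : ∀ i, 1 ≤ dF i) (hΦ : Smo Φ)
    (hcf : CoefT dF x F c β δ) {t0 : ℕ} (hle : ∀ v, Adm C.M C.a v → c v ≤ t0 * ∑ k, (v k : ℚ))
    (hmul : ∀ v (r : ℕ), 1 ≤ r → Adm C.M C.a v → - c (r • v) ≤ r * (- c v))
    (hTadm : ∀ s ∈ T, Adm C.M C.a s)
    (hTgen : ∀ v, Adm C.M C.a v → ∃ w : (Fin r → ℕ) → ℚ, (∀ s, 0 ≤ w s) ∧
      (∀ k, (v k : ℚ) = ∑ s ∈ T, w s * s k) ∧ - c v ≤ ∑ s ∈ T, w s * (- c s))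
    (L : IntermediateField ℂ K) (hL : ∀ t, Slk T dF c β t → ∀ j, x t j / x t 0 ∈ L)
    (hL' : ∀ L' : IntermediateField ℂ K, (∀ t, Slk T dF c β t → ∀ j, x t j / x t 0 ∈ L') →
      L ≤ L') (hex : ∃ m, 1 ≤ m ∧ ∃ f : K, f ≠ 0 ∧ S1 (N' + 1) δ m f) (z : K) :
    z ∈ IF (N' + 1) δ ↔ IsAlgebraic L z := by
  classical
  rw [← if_shift H t0]
  refine iitA (T := T) H hdF hΦ (coefT_shift H hcf t0) (fun v hv => ?_) (fun v k hk hv => ?_)
    hTadm (fun v hv => ?_) L (fun t ht => hL t (slk_shift.1 ht))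
    (fun L' hL1 => hL' L' fun t ht => hL1 t (slk_shift.2 ht)) ?_ z
  · have := hle v hv
    linarith
  · have h1 := hmul v k hk hv
    have h2 : ∑ j, (((k • v) j : ℕ) : ℚ) = k * ∑ j, (v j : ℚ) := by
      rw [Finset.mul_sum]
      refine Finset.sum_congr rfl fun j _ => ?_
      simp only [Pi.smul_apply, smul_eq_mul]
      push_cast
      ring
    rw [h2]
    have h3 : (k : ℚ) * -(c v - t0 * ∑ j, (v j : ℚ)) = k * (- c v) +
        t0 * (k * ∑ j, (v j : ℚ)) := by ring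
    rw [h3]
    linarith
  · obtain ⟨w, hw, hwv, hwc⟩ := hTgen v hv
    refine ⟨w, hw, hwv, ?_⟩
    have h2 : ∑ k, (v k : ℚ) = ∑ s ∈ T, w s * ∑ k, (s k : ℚ) := by
      rw [Finset.sum_congr rfl fun k _ => hwv k, Finset.sum_comm]
      exact Finset.sum_congr rfl fun s _ => (Finset.mul_sum _ _ _).symm
    have h3 : ∑ s ∈ T, w s * -(c s - t0 * ∑ k, (s k : ℚ)) = ∑ s ∈ T, w s * (- c s) +
        t0 * ∑ k, (v k : ℚ) := by
      rw [h2, Finset.mul_sum, ← Finset.sum_add_distrib]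
      exact Finset.sum_congr rfl fun s _ => by ring
    rw [h3]
    linarith
  · obtain ⟨m, hm, f, hf0, hf⟩ := hex
    exact ⟨m, hm, _, mul_ne_zero hf0 (pow_ne_zero _ (tht_ne H)), (s1_shift (t0 := t0) H).2 hf⟩

end Pool.Agent.Q57.IK
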