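import Pool.Agent.Q57.IK.Deg
import Pool.Agent.Q57.IK.Cvr
import Pool.Agent.Q57.FT.Top

/-!
The Iitaka fields of toroidal divisors: the main theorem.
-/

set_option autoImplicit false
set_option linter.overlappingInstances false
set_option linter.unusedSectionVars false
set_option maxHeartbeats 1000000

open FF MvPolynomial Pool.Agent.W603.LV Pool.Agent.W602.GT Pool.Agent.W602.Cov
open Pool.Agent.TH756.PR Pool.Agent.TH122.AB Pool.Agent.TH756.PN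
open Pool.Agent.Y169.CH Pool.Agent.Q57.TP Pool.Agent.Q57.TQ Pool.Agent.Q57.GM
open Pool.Agent.Q57.GH Pool.Agent.Q57.FG Pool.Agent.Q57.FH Pool.Agent.Q57.GE Pool.Agent.Q57.FT

namespace Pool.Agent.Q57.IK

variable {r N R : ℕ} {n : Fin r → ℕ} {K : Type} [Field K] [Algebra ℂ K]

/-- the field which is generated by the coordinates of the factors in `I` -/
noncomputable def facF (x : ∀ i, Fin (n i + 1) → K) (I : Finset (Fin r)) : IntermediateField ℂ K :=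
  IntermediateField.adjoin ℂ (Set.range fun b : {b : (i : Fin r) × Fin (n i) // b.1 ∈ I} =>
    aff x b.1)

theorem facF_mem {x : ∀ i, Fin (n i + 1) → K} (hx0 : ∀ i, x i 0 ≠ 0) {I : Finset (Fin r)}
    {t : Fin r} (ht : t ∈ I) (j : Fin (n t + 1)) : x t j / x t 0 ∈ facF x I := by
  refine Fin.cases ?_ (fun l => ?_) j
  · rw [div_self (hx0 t)]
    exact one_mem _
  · exact IntermediateField.subset_adjoin _ _ ⟨⟨⟨t, l⟩, ht⟩, rfl⟩

theorem facF_le {x : ∀ i, Fin (n i + 1) → K} {I : Finset (Fin r)} {L : IntermediateField ℂ K}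
    (h : ∀ t ∈ I, ∀ j, x t j / x t 0 ∈ L) : facF x I ≤ L := by
  refine IntermediateField.adjoin_le_iff.2 ?_
  rintro _ ⟨⟨⟨t, l⟩, ht⟩, rfl⟩
  exact h t ht l.succ

/-- **The set-up**, with the fields of the factors. -/
theorem setup_k (hr : 1 ≤ r) (hn : ∀ i, 1 ≤ n i) (hN : N = ∑ i, n i)
    {F : ∀ i, MvPolynomial (Fin (n i + 1)) ℂ} {d : Fin r → ℕ} (hd : ∀ i, 1 ≤ d i)
    (hh : ∀ i, (F i).IsHomogeneous (d i)) (hs : ∀ i, SmF (F i))
    {x : ∀ i, Fin (n i + 1) → K} (hx0 : ∀ i, x i 0 ≠ 0)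
    (hbas : IsTranscendenceBasis ℂ (aff x)) {m : Fin R → ℕ} (hm : ∀ j, 0 < m j)
    {a : Fin R → Fin r → ℕ} (hdiv : ∀ j i, m j ∣ a j i * d i) {z : Fin R → K}
    (hz : ∀ j, z j ^ m j = ∏ i, (aeval (x i) (F i) / x i 0 ^ d i) ^ a j i)
    (hgen : IntermediateField.adjoin ℂ (Set.range (aff x) ∪ Set.range z) = ⊤) :
    ∃ (N' : ℕ) (e : ((i : Fin r) × Fin (n i)) ≃ Fin (N' + 1)) (Φ : Blk ℂ (N' + 1) r)
      (C : Cvr Φ K R) (x' : ∀ i, Fin (n i + 1) → K) (F' : ∀ i, MvPolynomial (Fin (n i + 1)) ℂ),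
      N = N' + 1 ∧ Smo Φ ∧ C.M = m ∧ C.a = a ∧ Mon e C d x' F' ∧
      (∀ P v, MultH C P v → v = mulQ F d x P) ∧
      (∀ (c : (Fin r → ℕ) → ℚ) (β : Fin r → ℤ) (δ : Place ℂ K → ℚ), c 0 = 0 →
        (∀ P, δ P = c (mulQ F d x P) - ∑ t, (β t : ℚ) * minO (x t) P) →
        CoefT d x' F' c β δ) ∧
      ∀ (L : IntermediateField ℂ K) i, (∀ j, x i j / x i 0 ∈ L) ↔ ∀ j, x' i j / x' i 0 ∈ L := by
  classical
  obtain ⟨N', hN'⟩ : ∃ N', N = N' + 1 := by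
    have h1 : n ⟨0, hr⟩ ≤ ∑ i, n i :=
      Finset.single_le_sum (f := n) (fun _ _ => Nat.zero_le _) (Finset.mem_univ _)
    have h2 := hn ⟨0, hr⟩
    exact ⟨N - 1, by omega⟩
  let e : ((i : Fin r) × Fin (n i)) ≃ Fin (N' + 1) :=
    finSigmaFinEquiv.trans (finCongr (by omega))
  have hbas' : IsTranscendenceBasis ℂ (uu e x) := basis_uu e hbas
  have hrange : Set.range (uu e x) = Set.range (aff x) := by
    ext z
    constructor
    · rintro ⟨b, rfl⟩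
      exact ⟨e.symm b, rfl⟩
    · rintro ⟨a, rfl⟩
      refine ⟨e a, ?_⟩
      change aff x (e.symm (e a)) = _
      rw [e.symm_apply_apply]
  obtain ⟨Φ, hΦ, hΦn, hΦD, C, hCM, hCa, hvv, x', F', hx', hs', hh', hFx', hZ, hFZ, hτ, hmin,
    hfld⟩ := exists_cvr_k e hn hx0 hbas' hd hs hh hm hz hdiv (by rw [hrange]; exact hgen)
  have H : Mon e C d x' F' := ⟨hn, hx', hs', hh', hFx', hZ, hFZ, hτ, hΦn, hΦD⟩
  refine ⟨N', e, Φ, C, x', F', hN', hΦ, hCM, hCa, H, hvv, fun c β δ hc0 hδ => ⟨hc0,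
    fun P α l v hdat => ?_⟩, hfld⟩
  rw [hδ, ← hvv P v (hdat.multH H)]
  congr 1
  refine Finset.sum_congr rfl fun t _ => ?_
  rw [hmin, datH_min hdat]

/-- `D` is nef -/
def NefO (N : ℕ) (δ : Place ℂ K → ℚ) : Prop :=
  ∃ S : Finset K, (∃ s ∈ S, s ≠ 0) ∧ ∀ M : ℕ, 1 ≤ M → ∃ j : ℕ, 1 ≤ j ∧
    ∀ P : Place ℂ K, Divisorial N P → ∃ f : K, f ≠ 0 ∧
      (∀ P' : Place ℂ K, Divisorial N P' → ∃ s ∈ S, s ≠ 0 ∧
        (j : ℚ) * P'.ord s - j * M * δ P' ≤ P'.ord f) ∧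
      ∀ s ∈ S, s ≠ 0 → (P.ord f : ℚ) ≤ j * P.ord s - j * M * δ P

/-- **The Iitaka fields of toroidal divisors.** -/
theorem main_iit (hr : 1 ≤ r) (hn : ∀ i, 1 ≤ n i) (hN : N = ∑ i, n i)
    {F : ∀ i, MvPolynomial (Fin (n i + 1)) ℂ} {d : Fin r → ℕ} (hd : ∀ i, 1 ≤ d i)
    (hh : ∀ i, (F i).IsHomogeneous (d i)) (hs : ∀ i, SmF (F i))
    {x : ∀ i, Fin (n i + 1) → K} (hx0 : ∀ i, x i 0 ≠ 0)
    (hbas : IsTranscendenceBasis ℂ (aff x)) {m : Fin R → ℕ} (hm : ∀ j, 0 < m j)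
    {a : Fin R → Fin r → ℕ} (hdiv : ∀ j i, m j ∣ a j i * d i) {z : Fin R → K}
    (hz : ∀ j, z j ^ m j = ∏ i, (aeval (x i) (F i) / x i 0 ^ d i) ^ a j i)
    (hgen : IntermediateField.adjoin ℂ (Set.range (aff x) ∪ Set.range z) = ⊤)
    {S : Finset (Finset (Fin r → ℕ))} (hS : Fan m a S) {c : (Fin r → ℕ) → ℚ}
    (hc0 : c 0 = 0) {u : Finset (Fin r → ℕ) → Fin r → ℚ}
    (hu : ∀ σ ∈ S, ∀ v, Adm m a v → InC σ v → - c v = ∑ k, u σ k * v k)
    {β : Fin r → ℤ} {δ : Place ℂ K → ℚ}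
    (hδ : ∀ P, δ P = c (mulQ F d x P) - ∑ t, (β t : ℚ) * minO (x t) P) :
    ((∃ k, 1 ≤ k ∧ ∃ f : K, f ≠ 0 ∧ S1 N δ k f) →
      ∃ I : Finset (Fin r), (∀ t, t ∈ I ↔ ∃ y : Fin r → ℚ, (∀ k, (d k : ℚ) * y k ≤ β k) ∧
          (∀ σ ∈ S, ∀ s ∈ σ, - c s ≤ ∑ k, y k * s k) ∧ (d t : ℚ) * y t < β t) ∧
        (∀ z, z ∈ IF N δ ↔ IsAlgebraic (facF x I) z) ∧
        Algebra.trdeg ℂ (IF N δ) = ((∑ t ∈ I, n t : ℕ) : Cardinal)) ∧
    (NefO N δ → (∃ k, 1 ≤ k ∧ ∀ P : Place ℂ K, Divisorial N P → ∃ f : K, f ≠ 0 ∧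
        S1 N δ k f ∧ (P.ord f : ℚ) ≤ - (k * δ P)) ∧
      ∃ I : Finset (Fin r), (∀ t, t ∈ I ↔ ∃ σ ∈ S, (d t : ℚ) * u σ t < β t) ∧
        (∀ z, z ∈ IF N δ ↔ IsAlgebraic (facF x I) z) ∧
        Algebra.trdeg ℂ (IF N δ) = ((∑ t ∈ I, n t : ℕ) : Cardinal)) := by
  classical
  obtain ⟨I, hI⟩ : ∃ I : Finset (Fin r),
      I = Finset.univ.filter fun t => Slk (S.biUnion id) d c β t := ⟨_, rfl⟩
  have hIm : ∀ t, t ∈ I ↔ Slk (S.biUnion id) d c β t := fun t => by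
    rw [hI]
    simp
  have hlin : LinC m a S (fun _ : Fin 1 => c) (fun σ _ => u σ) := fun σ hσ _ v hv hvσ =>
    hu σ hσ v hv hvσ
  have key : (∃ k, 1 ≤ k ∧ ∃ f : K, f ≠ 0 ∧ S1 N δ k f) →
      (∀ z, z ∈ IF N δ ↔ IsAlgebraic (facF x I) z) ∧
        Algebra.trdeg ℂ (IF N δ) = ((∑ t ∈ I, n t : ℕ) : Cardinal) := by
    intro hex
    have h1 : ∀ z, z ∈ IF N δ ↔ IsAlgebraic (facF x I) z := by
      obtain ⟨N', e, Φ, C, x', F', rfl, hΦ, rfl, rfl, H, hvv, hco, hfld⟩ :=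
        setup_k (N := N) hr hn hN hd hh hs hx0 hbas hm hdiv hz hgen
      obtain ⟨t0, ht0⟩ := hS.bdd hlin
      refine iitB (T := S.biUnion id) H hd hΦ (hco c β δ hc0 hδ) (ht0 0)
        (fun v k hk hv => hS.ray hlin 0 v k hk hv) hS.mem_adm (fun v hv => ?_) (facF x I)
        (fun t ht => (hfld _ t).1 (facF_mem hx0 ((hIm t).2 ht)))
        (fun L' hL' => facF_le fun t ht => (hfld L' t).2 (hL' t ((hIm t).1 ht))) hex
      obtain ⟨w, hw, hwv, hwc⟩ := hS.gen hlin v hv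
      exact ⟨w, hw, hwv, hwc 0⟩
    refine ⟨h1, ?_⟩
    rw [← card_fac I]
    refine trdeg_of (s := fun b : {b : (i : Fin r) × Fin (n i) // b.1 ∈ I} => aff x b.1)
      (hbas.1.comp _ Subtype.val_injective) _ h1
  refine ⟨fun hex => ⟨I, fun t => ?_, key hex⟩, fun hnef => ?_⟩
  · rw [hIm, slk_iff]
    simp only [Finset.mem_biUnion, id]
    constructor
    · rintro ⟨y, h1, h2, h3⟩
      exact ⟨y, h1, fun σ hσ s hs => h2 s ⟨σ, hσ, hs⟩, h3⟩
    · rintro ⟨y, h1, h2, h3⟩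
      exact ⟨y, h1, fun s ⟨σ, hσ, hs⟩ => h2 σ hσ s hs, h3⟩
  · obtain ⟨N0, h, hbpf, hcone⟩ := main_nefcone (p := 1) hr hn hN hd hh hs hx0 hbas hm hdiv hz hgen hS
      (c := fun _ => c) (fun _ => hc0) hlin (β := fun _ => β) (δ := fun _ => δ) (fun _ => hδ)
    have hnz : NefZ N (fun _ : Fin 1 => δ) (fun _ => 1) := by
      obtain ⟨A, hA, hnef⟩ := hnef
      refine ⟨A, hA, fun M hM => ?_⟩
      obtain ⟨j, hj, hP⟩ := hnef M hM
      refine ⟨j, hj, fun P hPd => ⟨fun _ => ((j * M : ℕ) : ℤ), fun _ => ?_, ?_⟩⟩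
      · push_cast
        rw [mul_one, sub_self, abs_zero]
        positivity
      · obtain ⟨f, hf0, h1, h2⟩ := hP P hPd
        refine ⟨f, hf0, fun P' hP' => ?_, fun s hs hs0 => ?_⟩
        · obtain ⟨s, hs, hs0, hle⟩ := h1 P' hP'
          refine Or.inr ⟨s, hs, hs0, ?_⟩
          rw [Fin.sum_univ_one]
          push_cast
          linarith
        · have h3 := h2 s hs hs0
          rw [Fin.sum_univ_one]
          push_cast
          linarith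
    obtain ⟨hi, hc⟩ := hcone fun _ => 1
    have hineq := hi.1 hnz
    obtain ⟨t, ht, hsum⟩ := hc.1 hnz
    have hpos : ∃ b, 0 < h b 0 := by
      by_contra hcon
      push Not at hcon
      have h1 := hsum 0
      have h2 : ∑ b, t b * (h b 0 : ℝ) ≤ 0 := by
        refine Finset.sum_nonpos fun b _ => mul_nonpos_of_nonneg_of_nonpos (ht b) ?_
        exact_mod_cast hcon b
      linarith
    obtain ⟨b, hb⟩ := hpos
    obtain ⟨k, hk⟩ : ∃ k : ℕ, (k : ℤ) = h b 0 := ⟨(h b 0).toNat, Int.toNat_of_nonneg hb.le⟩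
    have hk1 : 1 ≤ k := by
      have : (0 : ℤ) < k := by rw [hk]; exact hb
      exact_mod_cast this
    have hbp : ∀ P : Place ℂ K, Divisorial N P → ∃ f : K, f ≠ 0 ∧
        S1 N δ k f ∧ (P.ord f : ℚ) ≤ - (k * δ P) := by
      intro P hP
      obtain ⟨f, hf0, hf, hle⟩ := hbpf b P hP
      have hkq : ((h b 0 : ℤ) : ℚ) = k := by
        rw [← hk]
        push_cast
        rfl
      refine ⟨f, hf0, fun P' hP' => ?_, ?_⟩
      · have h1 := hf P' hP'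
        rw [Fin.sum_univ_one, hkq] at h1
        exact h1
      · rw [Fin.sum_univ_one, hkq] at hle
        exact hle
    refine ⟨⟨k, hk1, hbp⟩, I, fun t => ?_, ?_⟩
    · rw [hIm]
      refine slk_nef hm hS hu (fun σ hσ t => ?_) fun σ hσ τ hτ s hs => ?_
      · have h1 := (hineq σ hσ).1 t
        rw [Fin.sum_univ_one, Fin.sum_univ_one, one_mul, one_mul] at h1
        exact_mod_cast h1
      · have h1 := (hineq σ hσ).2 τ hτ s hs
        simp only [Fin.sum_univ_one, one_mul] at h1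
        exact_mod_cast h1
    · -- there is a place
      obtain ⟨P, hP⟩ : ∃ P : Place ℂ K, Divisorial N P := by
        obtain ⟨N', e, Φ, C, x', F', rfl, hΦ, rfl, rfl, H, hvv, hco, hfld⟩ :=
          setup_k (N := N) hr hn hN hd hh hs hx0 hbas hm hdiv hz hgen
        obtain ⟨σ, hσ, -⟩ := hS.cover (Pi.single ⟨0, hr⟩ (∏ j, C.M j)) (by
          refine ⟨fun h0 => ?_, fun j => ?_⟩
          · have h4 := congrFun h0 ⟨0, hr⟩
            rw [Pi.single_eq_same, Pi.zero_apply] at h4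
            exact absurd h4 (Finset.prod_pos fun j _ => hm j).ne'
          · refine Finset.dvd_sum fun k _ => ?_
            by_cases hk : k = ⟨0, hr⟩
            · rw [hk, Pi.single_eq_same]
              exact Dvd.dvd.mul_left (Finset.dvd_prod_of_mem C.M (Finset.mem_univ j)) _
            · rw [Pi.single_eq_of_ne hk, mul_zero]
              exact dvd_zero _)
        have hadm0 := hS.fanC.adm_vσ hr hσ
        obtain ⟨X, hX⟩ := C.exists_dir hadm0.1 hadm0.2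
        obtain ⟨P, v', r', hP, -⟩ := exists_place C hΦ X
        exact ⟨P, hP⟩
      obtain ⟨f, hf0, hf, -⟩ := hbp P hP
      exact key ⟨k, hk1, f, hf0, hf⟩

end Pool.Agent.Q57.IK
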